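import Pool.Agent.TH738.SV.All

/-!
Problem MP_1378ec_lc, question Q1, answered in the positive: there is a nonstandard model `A` of `PA`
such that no Solovay family for `Th(A)` relative to `A` has every `t_n` changing value at most once.

In fact, for every countable list `h 0, h 1, …` of functions there is such a model `A` for which every
Solovay family `(t_n)` has, for each `i`, infinitely many `n` such that `t_n` changes value more than
`h i n` times. (For the question take `h i n = 1`.) In particular `Th(A)` has no Solovay family of
constant functions relative to `A`.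

The definitions (oracle machines and their numbering, the Turing jump, atomic diagram, `Σ_n`
sentences true in `A`, Solovay families) are in `Pool.Agent.TH738.SV.Defs`; the language
`LA = {0, 1, +, ·, <}` and the theory `PA` are in `Pool.Agent.Helper227.EN.Lang`, the Goedel numbering
`gf` is in `Pool.Agent.TH748.MU.Defs` and the arithmetical hierarchy `Hier` is in
`Pool.Agent.TH754.PK.Statement`.

The proof: `A` is built as the limit of a sequence of conditions; a condition is a finite sequence of
elements of a model of `PA`, and at the stage `n` the `Σ_n` theory is fixed. The statements about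
`t_n(s)` are forced, where the forcing relation for `Σ_n` statements (about the diagram) depends on the
`Σ_n` type of the finite sequence only, and what can be forced by some condition with the same `Σ_n`
theory can be forced by an elementary extension. Against a given candidate for `t_n`, the `Σ_n` theory
is increased after every change of the value of `t_n`, so that the new value is a wrong index. That the
`Σ_n` theory can be increased again and again, in spite of the parameters in the condition, and that
this can be done at every level `n`, uses a universal finite sequence.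
-/

set_option autoImplicit false

open FirstOrder FirstOrder.Language
open Pool.Agent.Helper227.EN Pool.Agent.TH748.MU
open Pool.Agent.TH738.SV

namespace Pool.Agent.Results.MP_1378ec_lc.NoBoundedChanges

/-- Sanity check: every oracle machine has a number. -/
theorem ofNat_surj : Function.Surjective OCode.ofNat := by
  have key : ∀ (m r : ℕ), r < 4 → (4 * m + r) / 4 = m ∧ (4 * m + r) % 4 = r := by
    intro m r hr
    omega
  intro c
  induction c with
  | zero => exact ⟨0, by rw [OCode.ofNat]⟩
  | succ => exact ⟨1, by rw [OCode.ofNat]⟩
  | left => exact ⟨2, by rw [OCode.ofNat]⟩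
  | right => exact ⟨3, by rw [OCode.ofNat]⟩
  | oracle => exact ⟨4, by rw [OCode.ofNat]⟩
  | pair a b iha ihb =>
    obtain ⟨i, rfl⟩ := iha
    obtain ⟨j, rfl⟩ := ihb
    refine ⟨4 * Nat.pair i j + 5, ?_⟩
    rw [OCode.ofNat]
    simp
  | comp a b iha ihb =>
    obtain ⟨i, rfl⟩ := iha
    obtain ⟨j, rfl⟩ := ihb
    refine ⟨(4 * Nat.pair i j + 1) + 5, ?_⟩
    rw [OCode.ofNat, (key (Nat.pair i j) 1 (by omega)).1, (key (Nat.pair i j) 1 (by omega)).2]
    simp
  | prec a b iha ihb =>
    obtain ⟨i, rfl⟩ := iha
    obtain ⟨j, rfl⟩ := ihb
    refine ⟨(4 * Nat.pair i j + 2) + 5, ?_⟩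
    rw [OCode.ofNat, (key (Nat.pair i j) 2 (by omega)).1, (key (Nat.pair i j) 2 (by omega)).2]
    simp
  | rfind' a iha =>
    obtain ⟨i, rfl⟩ := iha
    refine ⟨(4 * i + 3) + 5, ?_⟩
    rw [OCode.ofNat, (key i 3 (by omega)).1, (key i 3 (by omega)).2]
    simp

/-- **Main theorem.** For all functions `h 0, h 1, …` there is a nonstandard model `A` of `PA` such
that for every Solovay family `(t_n)` for `Th(A)` relative to `A` and every `i` there are infinitely
many `n` such that `t_n` changes its value more than `h i n` times. -/
theorem result (h : ℕ → ℕ → ℕ) :
    ∃ A : LA.Structure ℕ, @FirstOrder.Language.Theory.Model LA ℕ A PA ∧ Nonstandard A ∧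
      ∀ t : ℕ → ℕ → ℕ, IsSolovay (diagram A) (thSig A) t →
        ∀ i N : ℕ, ∃ n, N ≤ n ∧ 1 ≤ n ∧ ¬ ChangesAtMost (h i n) (t n) :=
  Pool.Agent.TH738.SV.main h

end Pool.Agent.Results.MP_1378ec_lc.NoBoundedChanges
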